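import Mathlib

/-! Net contents: the increasing sets lemma and capacitability of analytic sets. -/

set_option autoImplicit false
set_option maxHeartbeats 400000

namespace Pool.Agent.H791Z.Davies

open Set Filter Topology
open scoped ENNReal

variable {X ι : Type*}

/-- The family of cells indexed by `C` covers `A`. -/
def Covers (cell : ℕ → X → ι) (A : Set X) (C : Set (ℕ × ι)) : Prop :=
  ∀ x ∈ A, ∃ j, (j, cell j x) ∈ C

/-- Total weight of a family of cells. -/
noncomputable def wt (w : ℕ → ℝ≥0∞) (C : Set (ℕ × ι)) : ℝ≥0∞ :=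
  ∑' q : ℕ × ι, C.indicator (fun q => w q.1) q

/-- The net content. -/
noncomputable def net (cell : ℕ → X → ι) (w : ℕ → ℝ≥0∞) (A : Set X) : ℝ≥0∞ :=
  ⨅ (C : Set (ℕ × ι)) (_ : Covers cell A C), wt w C

variable {cell : ℕ → X → ι} {w : ℕ → ℝ≥0∞}

theorem wt_mono {C D : Set (ℕ × ι)} (h : C ⊆ D) : wt w C ≤ wt w D :=
  ENNReal.tsum_le_tsum fun q => indicator_le_indicator_of_subset h (fun _ => zero_le) q

theorem wt_union_le (C D : Set (ℕ × ι)) : wt w (C ∪ D) ≤ wt w C + wt w D := by
  unfold wt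
  rw [← ENNReal.tsum_add]
  refine ENNReal.tsum_le_tsum fun q => ?_
  by_cases h1 : q ∈ C <;> by_cases h2 : q ∈ D <;> simp [h1, h2]

theorem wt_union_of_disjoint {C D : Set (ℕ × ι)} (h : Disjoint C D) :
    wt w (C ∪ D) = wt w C + wt w D := by
  unfold wt
  rw [← ENNReal.tsum_add]
  refine tsum_congr fun q => ?_
  rw [indicator_union_of_disjoint h]

theorem wt_finset (G : Finset (ℕ × ι)) : wt w (G : Set (ℕ × ι)) = ∑ q ∈ G, w q.1 := by
  unfold wt
  rw [tsum_eq_sum (s := G) (fun q hq => indicator_of_notMem (by simpa using hq) _)]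
  exact Finset.sum_congr rfl fun q hq => indicator_of_mem (by simpa using hq) _

theorem wt_empty : wt w (∅ : Set (ℕ × ι)) = 0 := by simp [wt]

theorem wt_le_of_finset {C : Set (ℕ × ι)} {a : ℝ≥0∞}
    (h : ∀ G : Finset (ℕ × ι), (G : Set (ℕ × ι)) ⊆ C → ∑ q ∈ G, w q.1 ≤ a) : wt w C ≤ a := by
  classical
  unfold wt
  rw [ENNReal.tsum_eq_iSup_sum]
  refine iSup_le fun G => ?_
  refine le_trans (le_of_eq ?_) (h (G.filter (· ∈ C)) ?_)
  · rw [Finset.sum_filter]
    refine Finset.sum_congr rfl fun q _ => ?_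
    by_cases hq : q ∈ C <;> simp [hq]
  · intro q hq
    exact (Finset.mem_filter.1 hq).2

theorem sum_wt_le {κ : Type*} (F : Finset κ) (D : κ → Set (ℕ × ι)) {C : Set (ℕ × ι)}
    (hD : ∀ a ∈ F, D a ⊆ C) (hdis : ∀ a ∈ F, ∀ b ∈ F, a ≠ b → Disjoint (D a) (D b)) :
    ∑ a ∈ F, wt w (D a) ≤ wt w C := by
  classical
  induction F using Finset.induction_on generalizing C with
  | empty => simp
  | insert a F ha ih =>
    rw [Finset.sum_insert ha]
    have h1 : ∑ b ∈ F, wt w (D b) ≤ wt w (C \ D a) := by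
      refine ih (fun b hb => ?_) (fun b hb c hc => hdis b (by simp [hb]) c (by simp [hc]))
      refine subset_diff.2 ⟨hD b (by simp [hb]), hdis b (by simp [hb]) a (by simp) ?_⟩
      rintro rfl
      exact ha hb
    calc wt w (D a) + ∑ b ∈ F, wt w (D b) ≤ wt w (D a) + wt w (C \ D a) := by gcongr
      _ = wt w (D a ∪ C \ D a) := (wt_union_of_disjoint disjoint_sdiff_right).symm
      _ ≤ wt w C := wt_mono (union_subset (hD a (by simp)) diff_subset)

theorem net_le_wt {A : Set X} {C : Set (ℕ × ι)} (h : Covers cell A C) :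
    net cell w A ≤ wt w C :=
  iInf₂_le C h

theorem net_mono {A B : Set X} (h : A ⊆ B) : net cell w A ≤ net cell w B :=
  le_iInf₂ fun _ hC => net_le_wt fun x hx => hC x (h hx)

theorem net_empty : net cell w (∅ : Set X) = 0 :=
  le_antisymm ((net_le_wt (C := ∅) (fun _ h => h.elim)).trans wt_empty.le) zero_le

theorem net_union_le (A B : Set X) : net cell w (A ∪ B) ≤ net cell w A + net cell w B := by
  refine ENNReal.le_iInf₂_add_iInf₂ fun C hC D hD => ?_
  refine (net_le_wt (C := C ∪ D) ?_).trans (wt_union_le C D)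
  rintro x (hx | hx)
  · obtain ⟨j, hj⟩ := hC x hx
    exact ⟨j, Or.inl hj⟩
  · obtain ⟨j, hj⟩ := hD x hx
    exact ⟨j, Or.inr hj⟩

theorem net_biUnion_le {κ : Type*} (F : Finset κ) (A : κ → Set X) :
    net cell w (⋃ a ∈ F, A a) ≤ ∑ a ∈ F, net cell w (A a) := by
  classical
  induction F using Finset.induction_on with
  | empty => simp [net_empty]
  | insert a F ha ih =>
    rw [Finset.sum_insert ha, Finset.set_biUnion_insert]
    exact (net_union_le _ _).trans (by gcongr)

theorem exists_cover_lt {A : Set X} {a : ℝ≥0∞} (h : net cell w A < a) :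
    ∃ C, Covers cell A C ∧ wt w C < a := by
  unfold net at h
  simp only [iInf_lt_iff] at h
  obtain ⟨C, hC, h⟩ := h
  exact ⟨C, hC, h⟩

theorem nest_of_le (hnest : ∀ j x y, cell (j + 1) x = cell (j + 1) y → cell j x = cell j y)
    {i j : ℕ} (hij : i ≤ j) {x y : X} (h : cell j x = cell j y) : cell i x = cell i y := by
  induction j, hij using Nat.le_induction with
  | base => exact h
  | succ k _ ih => exact ih (hnest k x y h)

/-- Existence of the maximal cell of a family through each point. -/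
theorem exists_top (hnest : ∀ j x y, cell (j + 1) x = cell (j + 1) y → cell j x = cell j y)
    (D : Set (ℕ × ι)) : ∃ top : X → ℕ × ι, (∀ x, (top x).2 = cell (top x).1 x) ∧
      (∀ x j, (j, cell j x) ∈ D → top x ∈ D) ∧
      (∀ x y j, (j, cell j x) ∈ D → cell j x = cell j y → top x = top y) := by
  classical
  let lev : X → ℕ := fun x => if h : ∃ j, (j, cell j x) ∈ D then Nat.find h else 0
  have hmem : ∀ x j, (j, cell j x) ∈ D → (lev x, cell (lev x) x) ∈ D ∧ lev x ≤ j := by
    intro x j hj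
    have h : ∃ j, (j, cell j x) ∈ D := ⟨j, hj⟩
    have e : lev x = Nat.find h := dif_pos h
    rw [e]
    exact ⟨Nat.find_spec h, Nat.find_min' h hj⟩
  have hle : ∀ x y j, (j, cell j x) ∈ D → cell j x = cell j y → lev y ≤ lev x := by
    intro x y j hj hxy
    obtain ⟨h1, h2⟩ := hmem x j hj
    rw [nest_of_le hnest h2 hxy] at h1
    exact (hmem y _ h1).2
  refine ⟨fun x => (lev x, cell (lev x) x), fun _ => rfl, fun x j hj => (hmem x j hj).1, ?_⟩
  intro x y j hj hxy
  have h1 := hle x y j hj hxy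
  have h2 := hle y x j (hxy ▸ hj) hxy.symm
  have h3 : lev x = lev y := le_antisymm h2 h1
  have h4 := nest_of_le hnest (hmem x j hj).2 hxy
  change (lev x, cell (lev x) x) = (lev y, cell (lev y) y)
  rw [h4, h3]

/-- The increasing sets lemma. -/
theorem net_iUnion_le (hnest : ∀ j x y, cell (j + 1) x = cell (j + 1) y → cell j x = cell j y)
    (A : ℕ → Set X) (hA : Monotone A) : net cell w (⋃ i, A i) ≤ ⨆ i, net cell w (A i) := by
  classical
  refine ENNReal.le_of_forall_pos_le_add fun ε hε hS => ?_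
  set S := ⨆ i, net cell w (A i) with hSdef
  have hε2 : ((ε : ℝ≥0∞) / 2) ≠ 0 := by
    simp [hε.ne']
  obtain ⟨η, hη, hηs⟩ := ENNReal.exists_pos_sum_of_countable hε2 ℕ
  have hAS : ∀ i, net cell w (A i) ≤ S := fun i => le_iSup (fun i => net cell w (A i)) i
  have hex : ∀ i, ∃ C, Covers cell (A i) C ∧ wt w C < net cell w (A i) + η i := fun i =>
    exists_cover_lt (ENNReal.lt_add_right ((hAS i).trans_lt hS).ne (by simp [(hη i).ne']))
  choose C hC hCw using hex
  obtain ⟨top, htop, htopD, htopeq⟩ := exists_top hnest (⋃ i, C i)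
  let U : Set (ℕ × ι) := top '' (⋃ i, A i)
  have hUcov : Covers cell (⋃ i, A i) U := by
    intro x hx
    refine ⟨(top x).1, x, hx, ?_⟩
    rw [← htop x]
  have hUD : U ⊆ ⋃ i, C i := by
    rintro _ ⟨x, hx, rfl⟩
    obtain ⟨i, hi⟩ := mem_iUnion.1 hx
    obtain ⟨j, hj⟩ := hC i x hi
    exact htopD x j (mem_iUnion.2 ⟨i, hj⟩)
  let P : ℕ → ℕ × ι → Set X := fun i q => {x | x ∈ A i ∧ top x = q}
  have hPmono : ∀ i q, P i q ⊆ P (i + 1) q := fun i q x hx => ⟨hA (Nat.le_succ i) hx.1, hx.2⟩
  -- (a)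
  have ha : ∀ i (F : Finset (ℕ × ι)), ∑ q ∈ F, net cell w (P i q) ≤ wt w (C i) := by
    intro i F
    let D : ℕ × ι → Set (ℕ × ι) := fun q => {r | r ∈ C i ∧ ∃ x, cell r.1 x = r.2 ∧ top x = q}
    refine le_trans (Finset.sum_le_sum fun q _ => net_le_wt (C := D q) ?_)
      (sum_wt_le F D (fun q _ r hr => hr.1) ?_)
    · intro x hx
      obtain ⟨j, hj⟩ := hC i x hx.1
      exact ⟨j, hj, x, rfl, hx.2⟩
    · intro q _ q' _ hqq'
      rw [Set.disjoint_left]
      rintro r ⟨hr, x, hx, hxq⟩ ⟨-, y, hy, hyq⟩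
      apply hqq'
      rw [← hxq, ← hyq]
      refine htopeq x y r.1 (mem_iUnion.2 ⟨i, ?_⟩) (hx.trans hy.symm)
      rw [hx]
      exact hr
  -- (b)
  have hb : ∀ i (G : Finset (ℕ × ι)), (G : Set (ℕ × ι)) ⊆ U → (G : Set (ℕ × ι)) ⊆ C i →
      ∑ q ∈ G, w q.1 ≤ ∑ q ∈ G, net cell w (P i q) + η i := by
    intro i G hGU hGC
    let B : Set X := {x | x ∈ A i ∧ top x ∉ G}
    have hB : Covers cell B (C i \ G) := by
      intro x hx
      obtain ⟨j, hj⟩ := hC i x hx.1
      refine ⟨j, hj, fun hG => hx.2 ?_⟩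
      obtain ⟨y, -, hy⟩ := hGU hG
      have h1 : cell j x = cell j y := by
        have h2 := htop y
        rw [hy] at h2
        exact h2
      rw [htopeq x y j (mem_iUnion.2 ⟨i, hj⟩) h1, hy]
      exact hG
    have h1 : A i ⊆ (⋃ q ∈ G, P i q) ∪ B := by
      intro x hx
      by_cases h : top x ∈ G
      · exact Or.inl (mem_iUnion₂.2 ⟨top x, h, hx, rfl⟩)
      · exact Or.inr ⟨hx, h⟩
    have h2 : net cell w (A i) ≤ ∑ q ∈ G, net cell w (P i q) + wt w (C i \ G) :=
      (net_mono h1).trans ((net_union_le _ _).trans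
        (add_le_add (net_biUnion_le G _) (net_le_wt hB)))
    have h3 : ∑ q ∈ G, w q.1 + wt w (C i \ G) = wt w (C i) := by
      rw [← wt_finset, ← wt_union_of_disjoint disjoint_sdiff_right, union_diff_cancel hGC]
    have hfin : wt w (C i \ G) ≠ ∞ :=
      ((wt_mono diff_subset).trans_lt ((hCw i).trans_le le_top)).ne
    have h4 : ∑ q ∈ G, w q.1 + wt w (C i \ G) ≤
        (∑ q ∈ G, net cell w (P i q) + η i) + wt w (C i \ G) := by
      rw [h3]
      refine (hCw i).le.trans ?_
      calc net cell w (A i) + η i ≤ ∑ q ∈ G, net cell w (P i q) + wt w (C i \ G) + η i := by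
            gcongr
        _ = _ := by ring
    exact (ENNReal.add_le_add_iff_right hfin).1 h4
  -- combination
  have hc : ∀ I (G : Finset (ℕ × ι)), (G : Set (ℕ × ι)) ⊆ U → (∀ q ∈ G, ∃ i < I, q ∈ C i) →
      ∑ q ∈ G, w q.1 ≤ ∑ q ∈ G, net cell w (P I q) + ∑ i ∈ Finset.range I, (η i : ℝ≥0∞) := by
    intro I
    induction I with
    | zero =>
      intro G _ hG
      have : G = ∅ := by
        rw [Finset.eq_empty_iff_forall_notMem]
        intro q hq
        obtain ⟨i, hi, -⟩ := hG q hq
        omega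
      simp [this]
    | succ I ih =>
      intro G hGU hG
      have h1 := hb I (G.filter (· ∈ C I))
        (fun q hq => hGU (Finset.mem_filter.1 hq).1) (fun q hq => (Finset.mem_filter.1 hq).2)
      have h2 := ih (G.filter (fun q => ¬ q ∈ C I))
        (fun q hq => hGU (Finset.mem_filter.1 hq).1) (fun q hq => by
          obtain ⟨hq1, hq2⟩ := Finset.mem_filter.1 hq
          obtain ⟨i, hi, hqi⟩ := hG q hq1
          refine ⟨i, ?_, hqi⟩
          rcases Nat.lt_succ_iff_lt_or_eq.1 hi with h | h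
          · exact h
          · exact absurd (h ▸ hqi) hq2)
      have h3 : ∑ q ∈ G, net cell w (P I q) ≤ ∑ q ∈ G, net cell w (P (I + 1) q) :=
        Finset.sum_le_sum fun q _ => net_mono (hPmono I q)
      rw [← Finset.sum_filter_add_sum_filter_not G (· ∈ C I)] at h3
      rw [← Finset.sum_filter_add_sum_filter_not G (· ∈ C I) (fun q => w q.1),
        Finset.sum_range_succ]
      calc _ ≤ (∑ q ∈ G.filter (· ∈ C I), net cell w (P I q) + η I) +
            (∑ q ∈ G.filter (fun q => ¬ q ∈ C I), net cell w (P I q) +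
              ∑ i ∈ Finset.range I, (η i : ℝ≥0∞)) := add_le_add h1 h2
        _ = (∑ q ∈ G.filter (· ∈ C I), net cell w (P I q) +
            ∑ q ∈ G.filter (fun q => ¬ q ∈ C I), net cell w (P I q)) +
              (∑ i ∈ Finset.range I, (η i : ℝ≥0∞) + η I) := by ring
        _ ≤ _ := by gcongr
  refine (net_le_wt hUcov).trans (wt_le_of_finset fun G hG => ?_)
  have hI : ∃ I, ∀ q ∈ G, ∃ i < I, q ∈ C i := by
    have : ∀ q ∈ G, ∃ i, q ∈ C i := fun q hq => mem_iUnion.1 (hUD (hG hq))
    choose! g hg using this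
    refine ⟨G.sup g + 1, fun q hq => ⟨g q, ?_, hg q hq⟩⟩
    exact Nat.lt_succ_of_le (Finset.le_sup hq)
  obtain ⟨I, hI⟩ := hI
  have h5 : (η I : ℝ≥0∞) ≤ ε / 2 :=
    (ENNReal.le_tsum (f := fun i => (η i : ℝ≥0∞)) I).trans hηs.le
  have h6 : ∑ i ∈ Finset.range I, (η i : ℝ≥0∞) ≤ ε / 2 :=
    (ENNReal.sum_le_tsum _).trans hηs.le
  calc ∑ q ∈ G, w q.1 ≤ ∑ q ∈ G, net cell w (P I q) + ∑ i ∈ Finset.range I, (η i : ℝ≥0∞) :=
        hc I G hG hI
    _ ≤ (S + ε / 2) + ε / 2 := by
        refine add_le_add ((ha I G).trans ((hCw I).le.trans ?_)) h6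
        exact add_le_add (hAS I) h5
    _ = S + ε := by rw [add_assoc, ENNReal.add_halves]

/-- Capacitability: a continuous image of the Baire space of content `> c` contains a compact
set all of whose open neighbourhoods have content `> c`. -/
theorem exists_compact [TopologicalSpace X]
    (hnest : ∀ j x y, cell (j + 1) x = cell (j + 1) y → cell j x = cell j y)
    (f : (ℕ → ℕ) → X) (hf : Continuous f) {c : ℝ≥0∞} (hc : c < net cell w (range f)) :
    ∃ K ⊆ range f, IsCompact K ∧ ∀ U, IsOpen U → K ⊆ U → c < net cell w U := by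
  classical
  let T : (ℕ → ℕ) → ℕ → Set (ℕ → ℕ) := fun b k => {σ | ∀ i < k, σ i ≤ b i}
  have step : ∀ b k, ∃ m, c < net cell w (f '' T b k) →
      c < net cell w (f '' T (Function.update b k m) (k + 1)) := by
    intro b k
    by_cases h : c < net cell w (f '' T b k)
    · have hmono : Monotone fun m => f '' T (Function.update b k m) (k + 1) := by
        intro m m' hm
        refine image_mono fun σ hσ i hi => (hσ i hi).trans ?_
        by_cases hik : i = k
        · subst hik
          simpa using hm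
        · simp [Function.update_of_ne hik]
      have hsub : f '' T b k ⊆ ⋃ m, f '' T (Function.update b k m) (k + 1) := by
        rintro _ ⟨σ, hσ, rfl⟩
        refine mem_iUnion.2 ⟨σ k, σ, fun i hi => ?_, rfl⟩
        by_cases hik : i = k
        · subst hik
          simp
        · rw [Function.update_of_ne hik]
          exact hσ i (by omega)
      have h1 := h.trans_le ((net_mono hsub).trans (net_iUnion_le hnest _ hmono))
      obtain ⟨m, hm⟩ := lt_iSup_iff.1 h1
      exact ⟨m, fun _ => hm⟩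
    · exact ⟨0, fun h' => absurd h' h⟩
  choose m hm using step
  let B : ℕ → ℕ → ℕ := fun k =>
    Nat.rec (fun _ => 0) (fun k b => Function.update b k (m b k)) k
  have hB : ∀ k, B (k + 1) = Function.update (B k) k (m (B k) k) := fun k => rfl
  have hBc : ∀ k, c < net cell w (f '' T (B k) k) := by
    intro k
    induction k with
    | zero =>
      have : T (B 0) 0 = univ := eq_univ_of_forall fun σ i hi => absurd hi (Nat.not_lt_zero i)
      rw [this, image_univ]
      exact hc
    | succ k ih =>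
      rw [hB]
      exact hm _ _ ih
  let b : ℕ → ℕ := fun i => B (i + 1) i
  have hBb : ∀ k, ∀ i < k, B k i = b i := by
    intro k
    induction k with
    | zero => intro i hi; omega
    | succ k ih =>
      intro i hi
      by_cases hik : i = k
      · subst hik
        rfl
      · rw [hB, Function.update_of_ne hik]
        exact ih i (by omega)
  have hTb : ∀ k, T (B k) k = T b k := by
    intro k
    ext σ
    exact forall₂_congr fun i hi => by rw [hBb k i hi]
  let K0 : Set (ℕ → ℕ) := Set.pi univ fun i => Iic (b i)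
  have hK0 : IsCompact K0 := isCompact_univ_pi fun i => (finite_Iic (b i)).isCompact
  refine ⟨f '' K0, image_subset_range _ _, hK0.image hf, fun U hU hKU => ?_⟩
  have hex : ∃ k, f '' T b k ⊆ U := by
    by_contra hcon
    push Not at hcon
    have h1 : ∀ k, ∃ σ ∈ T b k, f σ ∉ U := by
      intro k
      obtain ⟨_, ⟨σ, hσ, rfl⟩, h⟩ := not_subset.1 (hcon k)
      exact ⟨σ, hσ, h⟩
    choose σ hσ hσU using h1
    let τ : ℕ → ℕ → ℕ := fun k i => min (σ k i) (b i)
    obtain ⟨a, ha, φ, hφ, hlim⟩ := hK0.tendsto_subseq (x := τ)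
      (fun k i _ => mem_Iic.2 (min_le_right _ _))
    have hlim' : Tendsto (fun k => σ (φ k)) atTop (𝓝 a) := by
      rw [tendsto_pi_nhds] at hlim ⊢
      intro i
      refine (hlim i).congr' ?_
      filter_upwards [eventually_gt_atTop i] with k hk
      exact min_eq_left (hσ (φ k) i (hk.trans_le (hφ.id_le k)))
    have h2 : ∀ᶠ k in atTop, f (σ (φ k)) ∈ U :=
      ((hf.tendsto a).comp hlim').eventually (hU.mem_nhds (hKU ⟨a, ha, rfl⟩))
    obtain ⟨k, hk⟩ := h2.exists
    exact hσU _ hk
  obtain ⟨k, hk⟩ := hex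
  have h3 := hBc k
  rw [hTb] at h3
  exact h3.trans_le (net_mono hk)

end Pool.Agent.H791Z.Davies
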