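import Mathlib
import Pool.Agent.H744R2.Falc.FrostH
import Pool.Agent.H791Z.Davies.Net

/-! Borel sets contain compact sets of large Hausdorff dimension. -/

set_option autoImplicit false
set_option maxHeartbeats 400000

namespace Pool.Agent.H791Z.Davies

open MeasureTheory Set Metric Filter Topology Pool.Agent.H744R2.Falc
open scoped ENNReal

/-- The weight of a dyadic cube of level `j`. -/
noncomputable def dw (s : ℝ) (j : ℕ) : ℝ≥0∞ := ENNReal.ofReal (((2 : ℝ)⁻¹ ^ j) ^ s)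

theorem hcell_nest (n j : ℕ) (x y : EuclideanSpace ℝ (Fin n))
    (h : hcell n (j + 1) x = hcell n (j + 1) y) : hcell n j x = hcell n j y := by
  funext i
  exact floor_nest j (x i) (y i) (congrFun h i)

theorem hausdorff_zero_of_net (n : ℕ) (E : Set (EuclideanSpace ℝ (Fin n))) (s : ℝ) (hs : 0 < s)
    (h : net (hcell n) (dw s) E = 0) : μH[s] E = 0 := by
  have hex : ∀ m : ℕ, ∃ C, Covers (hcell n) E C ∧
      wt (dw s) C < ENNReal.ofReal (1 / ((m : ℝ) + 1)) := fun m =>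
    exists_cover_lt (by rw [h]; exact ENNReal.ofReal_pos.2 (by positivity))
  choose C hC hCw using hex
  let B : ℝ := (n : ℝ) + 1
  have hB : 0 < B := by positivity
  have hdiam : ∀ (p : ℕ × (Fin n → ℤ)),
      Metric.ediam {x : EuclideanSpace ℝ (Fin n) | hcell n p.1 x = p.2} ≤
        ENNReal.ofReal (B * (2 : ℝ)⁻¹ ^ p.1) := by
    intro p
    apply Metric.ediam_le
    intro x hx y hy
    rw [edist_dist]
    apply ENNReal.ofReal_le_ofReal
    exact cell_diam n _ x y (hx.trans hy.symm)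
  have hsmall : ∀ (m : ℕ) (p : C m), (2 : ℝ)⁻¹ ^ p.1.1 ≤ (1 / ((m : ℝ) + 1)) ^ (1 / s) := by
    intro m p
    have h1 : dw s p.1.1 ≤ wt (dw s) (C m) := by
      refine le_trans (le_of_eq ?_)
        (ENNReal.le_tsum (f := fun q => (C m).indicator (fun q => dw s q.1) q) p.1)
      rw [indicator_of_mem p.2]
    have h2 : ((2 : ℝ)⁻¹ ^ p.1.1) ^ s ≤ 1 / ((m : ℝ) + 1) :=
      (ENNReal.ofReal_le_ofReal_iff (by positivity)).1 (h1.trans (hCw m).le)
    have h3 : (2 : ℝ)⁻¹ ^ p.1.1 = (((2 : ℝ)⁻¹ ^ p.1.1) ^ s) ^ (1 / s) := by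
      rw [← Real.rpow_mul (by positivity), mul_one_div_cancel hs.ne', Real.rpow_one]
    rw [h3]
    exact Real.rpow_le_rpow (by positivity) h2 (by positivity)
  have hr0 : Tendsto (fun m : ℕ => (1 / ((m : ℝ) + 1)) ^ (1 / s)) atTop (𝓝 0) := by
    have h2 := tendsto_one_div_add_atTop_nhds_zero_nat (𝕜 := ℝ)
    have h3 := h2.rpow_const (p := 1 / s) (Or.inr (by positivity))
    rwa [Real.zero_rpow (by positivity)] at h3
  have hr : Tendsto (fun m : ℕ => ENNReal.ofReal (B * (1 / ((m : ℝ) + 1)) ^ (1 / s))) atTop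
      (𝓝 0) := by
    have h2 := (hr0.const_mul B)
    rw [mul_zero] at h2
    have h3 := ENNReal.tendsto_ofReal h2
    rwa [ENNReal.ofReal_zero] at h3
  have hle := Measure.hausdorffMeasure_le_liminf_tsum (β := ℕ) (ι := fun m => C m) s E
    (fun m : ℕ => ENNReal.ofReal (B * (1 / ((m : ℝ) + 1)) ^ (1 / s))) hr
    (fun m p => {x : EuclideanSpace ℝ (Fin n) | hcell n p.1.1 x = p.1.2})
    (Filter.Eventually.of_forall fun m p => (hdiam p.1).trans (ENNReal.ofReal_le_ofReal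
      (mul_le_mul_of_nonneg_left (hsmall m p) hB.le)))
    (Filter.Eventually.of_forall fun m x hx => by
      obtain ⟨j, hj⟩ := hC m x hx
      exact mem_iUnion.2 ⟨⟨(j, hcell n j x), hj⟩, rfl⟩)
  have hsum : ∀ m : ℕ, ∑' p : C m,
      Metric.ediam {x : EuclideanSpace ℝ (Fin n) | hcell n p.1.1 x = p.1.2} ^ s ≤
        ENNReal.ofReal (B ^ s * (1 / ((m : ℝ) + 1))) := by
    intro m
    calc ∑' p : C m, Metric.ediam {x : EuclideanSpace ℝ (Fin n) | hcell n p.1.1 x = p.1.2} ^ s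
        ≤ ∑' p : C m, ENNReal.ofReal (B ^ s) * dw s p.1.1 := by
          apply ENNReal.tsum_le_tsum
          intro p
          refine (ENNReal.rpow_le_rpow (hdiam p.1) hs.le).trans ?_
          rw [ENNReal.ofReal_rpow_of_nonneg (by positivity) hs.le,
            Real.mul_rpow hB.le (by positivity), ENNReal.ofReal_mul (by positivity)]
          rfl
      _ = ENNReal.ofReal (B ^ s) * wt (dw s) (C m) := by
          rw [ENNReal.tsum_mul_left]
          congr 1
          exact tsum_subtype (C m) (fun q => dw s q.1)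
      _ ≤ ENNReal.ofReal (B ^ s) * ENNReal.ofReal (1 / ((m : ℝ) + 1)) := by
          gcongr
          exact (hCw m).le
      _ = _ := by rw [ENNReal.ofReal_mul (by positivity)]
  have hlim : Tendsto (fun m : ℕ => ENNReal.ofReal (B ^ s * (1 / ((m : ℝ) + 1)))) atTop
      (𝓝 0) := by
    have h2 := (tendsto_one_div_add_atTop_nhds_zero_nat (𝕜 := ℝ)).const_mul (B ^ s)
    rw [mul_zero] at h2
    have h3 := ENNReal.tendsto_ofReal h2
    rwa [ENNReal.ofReal_zero] at h3
  rw [← nonpos_iff_eq_zero]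
  refine hle.trans ?_
  rw [← hlim.liminf_eq]
  exact liminf_le_liminf (Filter.Eventually.of_forall hsum)

theorem net_closedBall_le (n j : ℕ) (s : ℝ) (x : EuclideanSpace ℝ (Fin n)) :
    net (hcell n) (dw s) (closedBall x ((2 : ℝ)⁻¹ ^ j)) ≤ 3 ^ n * dw s j := by
  classical
  let F : Finset (Fin n → ℤ) := Fintype.piFinset (fun i => Finset.Icc (⌊(2 : ℝ) ^ j * x i⌋ - 1)
      (⌊(2 : ℝ) ^ j * x i⌋ + 1))
  have hF : F.card = 3 ^ n := by
    rw [Fintype.card_piFinset]
    have : ∀ i : Fin n, (Finset.Icc (⌊(2 : ℝ) ^ j * x i⌋ - 1)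
        (⌊(2 : ℝ) ^ j * x i⌋ + 1)).card = 3 := by
      intro i
      rw [Int.card_Icc]
      omega
    rw [Finset.prod_congr rfl (fun i _ => this i)]
    simp
  have hcov : Covers (hcell n) (closedBall x ((2 : ℝ)⁻¹ ^ j))
      ((F.image fun z => (j, z) : Finset (ℕ × (Fin n → ℤ))) : Set (ℕ × (Fin n → ℤ))) := by
    intro y hy
    refine ⟨j, Finset.mem_coe.2 (Finset.mem_image.2 ⟨hcell n j y, ?_, rfl⟩)⟩
    rw [Fintype.mem_piFinset]
    intro i
    rw [mem_closedBall] at hy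
    exact floor_ball j (x i) (y i) ((abs_coord_le n x y i).trans hy)
  refine (net_le_wt hcov).trans ?_
  rw [wt_finset, Finset.sum_image (fun a _ b _ h => (Prod.ext_iff.1 h).2)]
  simp [hF]

theorem exists_open_small (n : ℕ) (s : ℝ) (hs : 0 < s) (t : Set (EuclideanSpace ℝ (Fin n)))
    (ht : ediam t ≤ ENNReal.ofReal (1 / 2)) (η : ℝ) (hη : 0 < η) :
    ∃ U, IsOpen U ∧ t ⊆ U ∧ net (hcell n) (dw s) U ≤
      3 ^ n * ENNReal.ofReal (4 ^ s) * ((⨆ _ : t.Nonempty, ediam t ^ s) + ENNReal.ofReal η) := by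
  rcases t.eq_empty_or_nonempty with rfl | ⟨x, hx⟩
  · exact ⟨∅, isOpen_empty, subset_rfl, by rw [net_empty]; exact zero_le⟩
  rw [iSup_pos ⟨x, hx⟩]
  have hfin : ediam t ≠ ∞ := (ht.trans_lt ENNReal.ofReal_lt_top).ne
  set d : ℝ := (ediam t).toReal with hd
  have hd0 : 0 ≤ d := ENNReal.toReal_nonneg
  have hd1 : d ≤ 1 / 2 := ENNReal.toReal_le_of_le_ofReal (by norm_num) ht
  set δ : ℝ := min (1 / 2) (η ^ (1 / s)) with hδ
  have hδ0 : 0 < δ := lt_min (by norm_num) (by positivity)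
  have hδs : δ ^ s ≤ η := by
    refine (Real.rpow_le_rpow hδ0.le (min_le_right _ _) hs.le).trans (le_of_eq ?_)
    rw [← Real.rpow_mul hη.le, one_div_mul_cancel hs.ne', Real.rpow_one]
  set r : ℝ := max d δ with hr
  have hr0 : 0 < r := hδ0.trans_le (le_max_right _ _)
  have hr1 : 2 * r ≤ 1 := by
    have : r ≤ 1 / 2 := max_le hd1 (min_le_left _ _)
    linarith
  have hrs : r ^ s ≤ d ^ s + η := by
    rcases le_total d δ with h | h
    · rw [hr, max_eq_right h]
      have : 0 ≤ d ^ s := by positivity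
      linarith
    · rw [hr, max_eq_left h]
      linarith
  obtain ⟨j, hj1, hj2⟩ := exists_nat_pow_near_of_lt_one (x := 2 * r) (y := (2 : ℝ)⁻¹)
    (by positivity) hr1 (by norm_num) (by norm_num)
  refine ⟨ball x (2 * r), isOpen_ball, fun y hy => ?_, ?_⟩
  · rw [mem_ball]
    have h1 : dist y x ≤ d := by
      rw [dist_edist]
      exact ENNReal.toReal_mono hfin (edist_le_ediam_of_mem hy hx)
    have h2 : d ≤ r := le_max_left _ _
    linarith
  · refine (net_mono (ball_subset_closedBall.trans (closedBall_subset_closedBall hj2))).trans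
      ((net_closedBall_le n j s x).trans ?_)
    rw [mul_assoc]
    gcongr
    have h1 : (2 : ℝ)⁻¹ ^ j ≤ 4 * r := by
      rw [pow_succ] at hj1
      linarith
    have h2 : ((2 : ℝ)⁻¹ ^ j) ^ s ≤ 4 ^ s * (d ^ s + η) := by
      refine (Real.rpow_le_rpow (by positivity) h1 hs.le).trans ?_
      rw [Real.mul_rpow (by norm_num) hr0.le]
      gcongr
    refine (ENNReal.ofReal_le_ofReal h2).trans (le_of_eq ?_)
    rw [ENNReal.ofReal_mul (by positivity), ENNReal.ofReal_add (by positivity) hη.le,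
      ← ENNReal.ofReal_rpow_of_nonneg hd0 hs.le, hd, ENNReal.ofReal_toReal hfin]

theorem exists_open_of_hausdorff_zero (n : ℕ) (s : ℝ) (hs : 0 < s)
    (K : Set (EuclideanSpace ℝ (Fin n))) (hK : IsCompact K) (h0 : μH[s] K = 0) {c : ℝ≥0∞}
    (hc : 0 < c) : ∃ U, IsOpen U ∧ K ⊆ U ∧ net (hcell n) (dw s) U ≤ c := by
  set A : ℝ≥0∞ := 3 ^ n * ENNReal.ofReal (4 ^ s) with hA
  have hAfin : A ≠ ∞ := ENNReal.mul_ne_top (by simp) ENNReal.ofReal_ne_top
  obtain ⟨ε, hε, hεc⟩ := ENNReal.exists_nnreal_pos_mul_lt hAfin hc.ne'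
  have hε2 : ((ε : ℝ≥0∞) / 2) ≠ 0 := by simp [hε.ne']
  have h1 : (⨅ (t : ℕ → Set (EuclideanSpace ℝ (Fin n))) (_ : K ⊆ ⋃ n, t n)
      (_ : ∀ n, ediam (t n) ≤ ENNReal.ofReal (1 / 2)),
      ∑' n, ⨆ _ : (t n).Nonempty, ediam (t n) ^ s) < (ε : ℝ≥0∞) / 2 := by
    refine lt_of_le_of_lt ?_ (pos_iff_ne_zero.2 hε2)
    rw [← h0, Measure.hausdorffMeasure_apply]
    exact le_iSup₂_of_le (ENNReal.ofReal (1 / 2)) (ENNReal.ofReal_pos.2 (by norm_num)) le_rfl
  simp only [iInf_lt_iff] at h1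
  obtain ⟨t, ht, htd, hts⟩ := h1
  obtain ⟨η, hη, hηs⟩ := ENNReal.exists_pos_sum_of_countable hε2 ℕ
  choose U hUo htU hU using fun i => exists_open_small n s hs (t i) (htd i) (η i) (hη i)
  obtain ⟨F, hF⟩ := hK.elim_finite_subcover U hUo (ht.trans (iUnion_mono htU))
  refine ⟨⋃ i ∈ F, U i, isOpen_biUnion fun i _ => hUo i, hF, (net_biUnion_le F U).trans ?_⟩
  calc ∑ i ∈ F, net (hcell n) (dw s) (U i) ≤ ∑' i, net (hcell n) (dw s) (U i) :=
        ENNReal.sum_le_tsum _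
    _ ≤ ∑' i, A * ((⨆ _ : (t i).Nonempty, ediam (t i) ^ s) + (η i : ℝ≥0∞)) := by
        refine ENNReal.tsum_le_tsum fun i => (hU i).trans (le_of_eq ?_)
        rw [ENNReal.ofReal_coe_nnreal]
    _ = A * ((∑' i, ⨆ _ : (t i).Nonempty, ediam (t i) ^ s) + ∑' i, (η i : ℝ≥0∞)) := by
        rw [ENNReal.tsum_mul_left, ENNReal.tsum_add]
    _ ≤ A * (ε / 2 + ε / 2) := by gcongr
    _ = ε * A := by rw [ENNReal.add_halves, mul_comm]
    _ ≤ c := hεc.le

/-- Borel sets contain compact sets of large Hausdorff dimension. -/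
theorem davies (n : ℕ) (E : Set (EuclideanSpace ℝ (Fin n))) (hE : MeasurableSet E) (s : ℝ)
    (hs : 0 < s) (h : ENNReal.ofReal s < dimH E) :
    ∃ K ⊆ E, IsCompact K ∧ ENNReal.ofReal s ≤ dimH K := by
  have htop : μH[s] E = ⊤ := by
    have h2 : ((s.toNNReal : NNReal) : ENNReal) < dimH E := h
    have h3 := hausdorffMeasure_of_lt_dimH h2
    rwa [Real.coe_toNNReal s hs.le] at h3
  have hpos : 0 < net (hcell n) (dw s) E := by
    rw [pos_iff_ne_zero]
    intro h0
    rw [hausdorff_zero_of_net n E s hs h0] at htop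
    exact absurd htop (by simp)
  obtain ⟨c, hc0, hc⟩ := exists_between hpos
  have han := hE.analyticSet
  rw [AnalyticSet] at han
  rcases han with rfl | ⟨f, hf, rfl⟩
  · rw [net_empty] at hpos
    exact absurd hpos (lt_irrefl _)
  obtain ⟨K, hKE, hK, hKU⟩ := exists_compact (hcell_nest n) f hf hc
  refine ⟨K, hKE, hK, ?_⟩
  by_contra hlt
  have h2 : dimH K < ((s.toNNReal : NNReal) : ENNReal) := not_le.1 hlt
  have h3 := hausdorffMeasure_of_dimH_lt h2
  rw [Real.coe_toNNReal s hs.le] at h3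
  obtain ⟨U, hUo, hKU', hU⟩ := exists_open_of_hausdorff_zero n s hs K hK h3 hc0
  exact absurd (hKU U hUo hKU') (not_lt.2 hU)

end Pool.Agent.H791Z.Davies
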